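import Pool.Agent.H68.LP.Stm

set_option autoImplicit false

namespace Pool.Agent.H70.LP

open Quaternion Pool.Agent.H68.LP

attribute [local instance 100] LieRing.ofAssociativeRing

variable {K : Type} [Field K]

theorem lie_eq (u v : ℍ[K]) : ⁅u, v⁆ = u * v - v * u := rfl

theorem lre (u v : ℍ[K]) (hu : u.re = 0) (hv : v.re = 0) : (⁅u, v⁆ : ℍ[K]).re = 0 := by
  rw [lie_eq, Quaternion.re_sub, Quaternion.re_mul, Quaternion.re_mul, hu, hv]; ring

theorem lI (u v : ℍ[K]) (hu : u.re = 0) (hv : v.re = 0) :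
    (⁅u, v⁆ : ℍ[K]).imI = 2 * (u.imJ * v.imK - u.imK * v.imJ) := by
  rw [lie_eq, Quaternion.imI_sub, Quaternion.imI_mul, Quaternion.imI_mul, hu, hv]; ring

theorem lJ (u v : ℍ[K]) (hu : u.re = 0) (hv : v.re = 0) :
    (⁅u, v⁆ : ℍ[K]).imJ = 2 * (u.imK * v.imI - u.imI * v.imK) := by
  rw [lie_eq, Quaternion.imJ_sub, Quaternion.imJ_mul, Quaternion.imJ_mul, hu, hv]; ring

theorem lK (u v : ℍ[K]) (hu : u.re = 0) (hv : v.re = 0) :
    (⁅u, v⁆ : ℍ[K]).imK = 2 * (u.imI * v.imJ - u.imJ * v.imI) := by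
  rw [lie_eq, Quaternion.imK_sub, Quaternion.imK_mul, Quaternion.imK_mul, hu, hv]; ring

/-- the values at words are eigenvectors -/
theorem word_wt (h : ℍ[K]) (a : ℕ → ℍ[K]) (wt : ℕ → K) (hwt : ∀ i, ⁅h, a i⁆ = wt i • a i)
    (s : Multiset ℕ) (w : FreeLieAlgebra K ℕ) (hw : IsWord K s w) :
    ⁅h, ev a w⁆ = (s.map wt).sum • ev a w := by
  induction hw with
  | letter i => simpa using hwt i
  | bracket hv hw ihv ihw =>
    rw [ev_lie, leibniz_lie, ihv, ihw, Multiset.map_add, Multiset.sum_add, smul_lie, lie_smul,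
      add_smul]

theorem t_MUB : S_MUB := by
  intro K _ _ _ V p hp ι hι a ha
  set h : ℍ[K] := ⟨0, ι, 0, 0⟩ with hh
  have hpure : ∀ i, (a i).re = 0 := by
    intro i
    rcases ha i with h1 | h1 | h1 <;> rw [h1]
  have hw : ∀ i, ∃ c : K, ⁅h, a i⁆ = c • a i := by
    intro i
    have h0 : h.re = 0 := rfl
    rcases ha i with h1 | h1 | h1
    · refine ⟨0, ?_⟩
      rw [h1, zero_smul, lie_self]
    · refine ⟨2, ?_⟩
      have h2 := hpure i
      apply Quaternion.ext
      · rw [lre _ _ h0 h2, Quaternion.re_smul, h2, smul_zero]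
      · rw [lI _ _ h0 h2, Quaternion.imI_smul, h1, hh, smul_eq_mul]; ring
      · rw [lJ _ _ h0 h2, Quaternion.imJ_smul, h1, hh, smul_eq_mul]; linear_combination (-2) * hι
      · rw [lK _ _ h0 h2, Quaternion.imK_smul, h1, hh, smul_eq_mul]; ring
    · refine ⟨-2, ?_⟩
      have h2 := hpure i
      apply Quaternion.ext
      · rw [lre _ _ h0 h2, Quaternion.re_smul, h2, smul_zero]
      · rw [lI _ _ h0 h2, Quaternion.imI_smul, h1, hh, smul_eq_mul]; ring
      · rw [lJ _ _ h0 h2, Quaternion.imJ_smul, h1, hh, smul_eq_mul]; linear_combination 2 * hι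
      · rw [lK _ _ h0 h2, Quaternion.imK_smul, h1, hh, smul_eq_mul]; ring
  choose wt hwt using hw
  have hmain : ⁅h, ev a p⁆ = (V.val.map wt).sum • ev a p := by
    induction hp using Submodule.span_induction with
    | mem x hx => exact word_wt h a wt hwt _ _ hx
    | zero => simp
    | add x y _ _ hx hy => rw [ev_add, lie_add, hx, hy, smul_add]
    | smul c x _ hx => rw [ev_smul, lie_smul, hx, smul_comm]
  have hre : (ev a p).re = 0 := by
    refine ev_ind (fun x : ℍ[K] => x.re = 0) a p rfl hpure ?_ ?_ ?_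
    · intro x y hx hy
      show (x + y).re = 0
      rw [Quaternion.re_add, hx, hy, add_zero]
    · intro c x hx
      show (c • x).re = 0
      rw [Quaternion.re_smul, hx, smul_zero]
    · intro x y hx hy
      exact lre x y hx hy
  set x := ev a p with hx
  set N := (V.val.map wt).sum with hN
  have h0 : h.re = 0 := rfl
  have e1 : (⁅h, x⁆ : ℍ[K]).imI = (N • x).imI := by rw [hmain]
  have e2 : (⁅h, x⁆ : ℍ[K]).imJ = (N • x).imJ := by rw [hmain]
  have e3 : (⁅h, x⁆ : ℍ[K]).imK = (N • x).imK := by rw [hmain]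
  rw [lI _ _ h0 hre, Quaternion.imI_smul, smul_eq_mul] at e1
  rw [lJ _ _ h0 hre, Quaternion.imJ_smul, smul_eq_mul] at e2
  rw [lK _ _ h0 hre, Quaternion.imK_smul, smul_eq_mul] at e3
  have g1 : h.imI = ι := rfl
  have g2 : h.imJ = 0 := rfl
  have g3 : h.imK = 0 := rfl
  rw [g2, g3] at e1
  rw [g1, g3] at e2
  rw [g1, g2] at e3
  have hι0 : ι ≠ 0 := by
    rintro rfl
    norm_num at hι
  by_cases hc : x.imJ = 0 ∧ x.imK = 0
  · left
    refine ⟨x.imI, ?_⟩
    exact QuaternionAlgebra.ext hre rfl hc.1 hc.2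
  · right
    have hN0 : N ≠ 0 := by
      intro hN0
      rw [hN0] at e2 e3
      apply hc
      constructor
      · have h3 : (2 * ι) * x.imJ = 0 := by linear_combination e3
        rcases mul_eq_zero.1 h3 with h4 | h4
        · exact absurd h4 (mul_ne_zero two_ne_zero hι0)
        · exact h4
      · have h3 : (2 * ι) * x.imK = 0 := by linear_combination (-1) * e2
        rcases mul_eq_zero.1 h3 with h4 | h4
        · exact absurd h4 (mul_ne_zero two_ne_zero hι0)
        · exact h4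
    have hI : x.imI = 0 := by
      have h3 : N * x.imI = 0 := by linear_combination (-1) * e1
      exact (mul_eq_zero.1 h3).resolve_left hN0
    have hJK : x.imJ ^ 2 + x.imK ^ 2 = 0 := by
      have h3 : N * (x.imJ ^ 2 + x.imK ^ 2) = 0 := by
        linear_combination (-x.imJ) * e2 - x.imK * e3
      exact (mul_eq_zero.1 h3).resolve_left hN0
    constructor
    · intro hx0
      apply hc
      rw [hx0]
      exact ⟨rfl, rfl⟩
    · rw [Quaternion.normSq_def', hre, hI]
      linear_combination hJK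

end Pool.Agent.H70.LP
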